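import Pool.Agent.KS6_46.RC.Conv

namespace Pool.Agent.Results.MP_f21612_lc.TukeyTypes

open Set Filter Cardinal Pool.Agent.Results.MP_f21612_lc.RelCof Pool.Agent.KS6_46.RC

/-- **Relative cofinalities of maximal ideals.**

(1) In ZFC there is one maximal ideal `I` on `ω` with `cof(I) = 𝔠` such that for EVERY nonempty
preordered set `P` of size at most `𝔠` in which all countable sets are bounded there is an ideal
`J ⊆ I` on `ω` such that `I`, ordered by inclusion modulo `J`, is Tukey equivalent to `P`; then
`cof_J(I)` is the cofinality of `P`.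

(2) In particular, for the same `I`, every regular uncountable cardinal `κ ≤ 𝔠` is `cof_J(I)` for
some ideal `J ⊆ I` (Q1 is the case `κ = ω₁`), and so is the cofinality of the countable subsets
of `K`, ordered by inclusion, for every set `K` of size at most `𝔠`.

(3) Conversely, for every maximal ideal `I` and every ideal `J ⊆ I` (also for `J = {∅}`) the
cardinal `cof_J(I)` is `1` or has uncountable cofinality. -/
theorem result :
    (∃ I, IsMaximalIdeal I ∧ cof I = 𝔠 ∧
      (∀ (P : Type) [Preorder P] [Nonempty P], #P ≤ 𝔠 →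
        (∀ C : Set P, C.Countable → BddAbove C) →
        ∃ J, IsIdeal J ∧ J ⊆ I ∧ TukeyEq P I J ∧ relCof J I = Order.cof P) ∧
      (∀ κ : Cardinal.{0}, κ.IsRegular → ℵ₀ < κ → κ ≤ 𝔠 →
        ∃ J, IsIdeal J ∧ J ⊆ I ∧ relCof J I = κ) ∧
      (∀ K : Type, #K ≤ 𝔠 → ∃ J, IsIdeal J ∧ J ⊆ I ∧
        relCof J I = Order.cof {C : Set K // C.Countable})) ∧
    ∀ I J, IsMaximalIdeal I → (IsIdeal J ∨ J = {∅}) → J ⊆ I →
      relCof J I = 1 ∨ ℵ₀ < (relCof J I).ord.cof := by
  refine ⟨?_, ?_⟩
  · obtain ⟨A, F, U, hF, h1, h2, hU, hUA, hcof⟩ := setup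
    have key : ∀ (P : Type) [Preorder P] [Nonempty P], #P ≤ 𝔠 →
        (∀ C : Set P, C.Countable → BddAbove C) →
        ∃ J, IsIdeal J ∧ J ⊆ {X | Xᶜ ∈ (U : Filter ℕ)} ∧
          TukeyEq P {X | Xᶜ ∈ (U : Filter ℕ)} J ∧
          relCof J {X | Xᶜ ∈ (U : Filter ℕ)} = Order.cof P := by
      intro P _ _ hP hσ
      obtain ⟨J, hJ, hJI, hT⟩ := realise hF h1 h2 hU hUA P hP hσ
      exact ⟨J, hJ, hJI, hT, relCof_eq (hJ.2.2.2 ∅ finite_empty) hT⟩
    refine ⟨{X | Xᶜ ∈ (U : Filter ℕ)}, maximal_of_ultra U (hU.trans hF), hcof, key, ?_, ?_⟩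
    · intro κ hκ hκ0 hκc
      have hne : Nonempty κ.ord.ToType := by
        rw [← mk_ne_zero_iff, mk_ord_toType]
        exact (aleph0_pos.trans hκ0).ne'
      have hσ : ∀ C : Set κ.ord.ToType, C.Countable → BddAbove C := by
        intro C hC
        by_contra hb
        have h3 : IsCofinal C := by
          intro a
          by_contra hn
          push Not at hn
          exact hb ⟨a, fun c hc => (hn c hc).le⟩
        have h4 := Order.cof_le h3
        rw [Ordinal.cof_toType, hκ.cof_ord] at h4
        exact absurd hκ0 (not_lt.2 (h4.trans (le_aleph0_iff_set_countable.2 hC)))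
      obtain ⟨J, hJ, hJI, _, hc⟩ := key κ.ord.ToType ((mk_ord_toType κ).trans_le hκc) hσ
      exact ⟨J, hJ, hJI, by rw [hc, Ordinal.cof_toType, hκ.cof_ord]⟩
    · intro K hK
      have hne : Nonempty {C : Set K // C.Countable} := ⟨⟨∅, countable_empty⟩⟩
      have hcard : #{C : Set K // C.Countable} ≤ 𝔠 := by
        have h3 : #{C : Set K // C.Countable} ≤ #(ℕ → Option K) := by
          refine mk_le_of_surjective
            (f := fun s : ℕ → Option K => (⟨{x | ∃ n, s n = some x}, by
              refine (countable_range s).preimage_of_injOn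
                (f := (some : K → Option K)) (Option.some_injective K).injOn |>.mono ?_
              rintro x ⟨n, hn⟩
              exact ⟨n, hn⟩⟩ : {C : Set K // C.Countable})) ?_
          rintro ⟨C, hC⟩
          rcases C.eq_empty_or_nonempty with h | h
          · refine ⟨fun _ => none, Subtype.ext ?_⟩
            simp [h]
          · obtain ⟨s, hs⟩ := hC.exists_eq_range h
            refine ⟨fun n => some (s n), Subtype.ext ?_⟩
            ext x
            simp [hs]
        refine h3.trans ?_
        have h4 : #(Option K) ≤ 𝔠 := by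
          rw [mk_option]
          exact (add_le_add hK (one_le_aleph0.trans aleph0_le_continuum)).trans
            (add_eq_self aleph0_le_continuum).le
        calc #(ℕ → Option K) = #(Option K) ^ ℵ₀ := by simp
          _ ≤ 𝔠 ^ ℵ₀ := power_le_power_right h4
          _ = 𝔠 := continuum_power_aleph0
      have hσ : ∀ C : Set {C : Set K // C.Countable}, C.Countable → BddAbove C := by
        intro C hC
        refine ⟨⟨⋃ D ∈ C, (D : Set K), ?_⟩, ?_⟩
        · exact hC.biUnion fun D _ => D.2
        · intro D hD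
          exact Subtype.coe_le_coe.1 (subset_biUnion_of_mem (u := fun D : {C : Set K //
            C.Countable} => (D : Set K)) hD)
      obtain ⟨J, hJ, hJI, _, hc⟩ := key {C : Set K // C.Countable} hcard hσ
      exact ⟨J, hJ, hJI, hc⟩
  · rintro I J hI (hJ | rfl) _
    · exact cof_uncountable hI hJ.1 hJ.2.1 (hJ.2.2.2 ∅ finite_empty)
    · refine cof_uncountable hI ?_ ?_ rfl
      · rintro A rfl B hB
        exact subset_empty_iff.1 hB
      · rintro A rfl B rfl
        simp

end Pool.Agent.Results.MP_f21612_lc.TukeyTypes
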